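import Pool.Agent.Helper98.CP.Basic
import Pool.Agent.Helper26.CP.OA4a
import Pool.Agent.Helper26.CP.OA5a

/-! # OA-5c: certificates for kind `K` (MP_82cbb9_al) -/

set_option autoImplicit false

namespace Pool.Agent.CP.OA5c

open Stage

section lists

variable {W : Type*} [AddCommGroup W]

theorem lc_sub (vs : List W) : ∀ (e e' : List ℤ), e.length = vs.length → e'.length = vs.length →
    lc vs (List.zipWith (· - ·) e e') = lc vs e - lc vs e' := by
  induction vs with
  | nil => intro e e' _ _; simp [lc]
  | cons v vs ih =>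
    intro e e' h h'
    match e, e', h, h' with
    | a :: e, a' :: e', h, h' =>
      simp only [List.length_cons, Nat.add_right_cancel_iff] at h h'
      simp only [List.zipWith_cons_cons, lc]
      rw [ih e e' h h', sub_smul]
      abel

theorem lc_mul (vs : List W) (m : ℤ) : ∀ (e : List ℤ), e.length = vs.length →
    lc vs (e.map (m * ·)) = m • lc vs e := by
  induction vs with
  | nil => intro e _; simp [lc]
  | cons v vs ih =>
    intro e h
    match e, h with
    | a :: e, h =>
      simp only [List.length_cons, Nat.add_right_cancel_iff] at h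
      simp only [List.map_cons, lc]
      rw [ih e h, smul_add, mul_smul]

theorem ind_eq_of {P : W → Prop} {vs : List W} (hI : Ind P vs) {e e' : List ℤ}
    (h : e.length = vs.length) (h' : e'.length = vs.length) (hP : P (lc vs e - lc vs e')) :
    e = e' := by
  have h1 := hI (List.zipWith (· - ·) e e') (by simp [h, h']) (by rw [lc_sub vs e e' h h']; exact hP)
  apply List.ext_getElem (h.trans h'.symm)
  intro i hi hi'
  have h2 := h1 (e[i] - e'[i]) (by
    rw [List.mem_iff_getElem]
    exact ⟨i, by simp; omega, by simp⟩)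
  omega

variable [Module ℚ W]

theorem lq_cast (vs : List W) : ∀ (e : List ℤ), e.length = vs.length →
    lq vs (e.map (fun i : ℤ => (i : ℚ))) = lc vs e := by
  induction vs with
  | nil => intro e _; simp [lq, lc]
  | cons v vs ih =>
    intro e h
    match e, h with
    | a :: e, h =>
      simp only [List.length_cons, Nat.add_right_cancel_iff] at h
      simp only [List.map_cons, lc, lq]
      rw [ih e h, Int.cast_smul_eq_zsmul]

theorem lq_smul (vs : List W) (a : ℚ) : ∀ (q : List ℚ), q.length = vs.length →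
    lq vs (q.map (a * ·)) = a • lq vs q := by
  induction vs with
  | nil => intro e _; simp [lq]
  | cons v vs ih =>
    intro e h
    match e, h with
    | b :: e, h =>
      simp only [List.length_cons, Nat.add_right_cancel_iff] at h
      simp only [List.map_cons, lq]
      rw [ih e h, smul_add, mul_smul]

/-- a common denominator of a list of rationals -/
theorem exists_denom : ∀ q : List ℚ, ∃ m : ℕ, 0 < m ∧ ∃ e : List ℤ,
    q.map ((m : ℚ) * ·) = e.map (fun i : ℤ => (i : ℚ)) := by
  intro q
  induction q with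
  | nil => exact ⟨1, one_pos, [], rfl⟩
  | cons a q ih =>
    obtain ⟨m, hm, e, he⟩ := ih
    refine ⟨m * a.den, Nat.mul_pos hm a.pos, (m * a.num) :: e.map ((a.den : ℤ) * ·), ?_⟩
    rw [List.map_cons, List.map_cons]
    congr 1
    · push_cast
      rw [mul_assoc, Rat.den_mul_eq_num]
    · have h2 : q.map (((m * a.den : ℕ) : ℚ) * ·) = (q.map ((m : ℚ) * ·)).map ((a.den : ℚ) * ·) := by
        rw [List.map_map]
        apply List.map_congr_left
        intro t _
        simp only [Function.comp]
        push_cast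
        ring
      rw [h2, he, List.map_map, List.map_map]
      apply List.map_congr_left
      intro t _
      simp

theorem exists_denom_lc (vs : List W) (q : List ℚ) (h : q.length = vs.length) :
    ∃ m : ℕ, 0 < m ∧ ∃ e : List ℤ, e.length = vs.length ∧ m • lq vs q = lc vs e := by
  obtain ⟨m, hm, e, he⟩ := exists_denom q
  have hl : e.length = vs.length := by
    have := congr_arg List.length he
    simp only [List.length_map] at this
    omega
  refine ⟨m, hm, e, hl, ?_⟩
  rw [← lq_cast vs e hl, ← he, lq_smul vs _ q h, Nat.cast_smul_eq_nsmul]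

end lists

section main

variable {G V : Type*} [Group G] [AddCommGroup V] [Module ℚ V]


/-- `κ` as a homomorphism -/
def κHom (S : Stage G V) : G →* Multiplicative (Fin S.q → ℚ) where
  toFun g := Multiplicative.ofAdd (S.κ g)
  map_one' := by rw [Stage.κ_one]; rfl
  map_mul' a b := by rw [S.κ_mul]; rfl

theorem κ_zpow (S : Stage G V) (a : G) (n : ℤ) : S.κ (a ^ n) = n • S.κ a := by
  have h := map_zpow (κHom S) a n
  exact congr_arg Multiplicative.toAdd h

theorem κ_pw (S : Stage G V) : ∀ (b : List G) (e : List ℤ), e.length = b.length →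
    S.κ (pw b e) = lc (b.map S.κ) e := by
  intro b
  induction b with
  | nil => intro e _; simp [pw, lc, Stage.κ_one]
  | cons a b ih =>
    intro e h
    match e, h with
    | i :: e, h =>
      simp only [List.length_cons, Nat.add_right_cancel_iff] at h
      simp only [pw, List.map_cons, lc]
      rw [S.κ_mul, κ_zpow, ih e h]

theorem κ_of_mem_cl (S : Stage G V) {h : List G} (hh : ∀ g ∈ h, S.κ g = 0) {g : G}
    (hg : g ∈ S.cl h) : S.κ g = 0 := by
  have hle : S.cl h ≤ (κHom S).ker := by
    apply cl_le
    · intro g hg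
      rw [MonoidHom.mem_ker]
      show Multiplicative.ofAdd (S.κ g) = 1
      rw [hh g hg]; rfl
    · intro g hg
      rw [MonoidHom.mem_ker]
      show Multiplicative.ofAdd (S.κ g) = 1
      rw [Stage.κ_of_triv (S.triv_of_mem_N hg)]; rfl
  have := hle hg
  rw [MonoidHom.mem_ker] at this
  exact congr_arg Multiplicative.toAdd this

theorem pw_mem {S : Stage G V} {x : V} : ∀ (b : List G) (e : List ℤ), (∀ g ∈ b, g ∈ S.C x) →
    pw b e ∈ S.C x := by
  intro b
  induction b with
  | nil => intro e _; simp [pw]
  | cons a b ih =>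
    intro e h
    match e with
    | [] => simp [pw]
    | i :: e =>
      simp only [pw]
      exact (S.C x).mul_mem ((S.C x).zpow_mem (h a (by simp)) i)
        (ih e (fun g hg => h g (by simp [hg])))

theorem op_append (S : Stage G V) (l l' : List (ℚ × G)) : S.op (l ++ l') = S.op l + S.op l' := by
  simp [op]

theorem op_neg (S : Stage G V) (l : List (ℚ × G)) :
    S.op (l.map fun p => (-p.1, p.2)) = - S.op l := by
  induction l with
  | nil => simp [op]
  | cons p l ih =>
    simp only [op, List.map_cons, List.sum_cons, List.map_map, neg_add] at ih ⊢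
    rw [ih, neg_smul]

theorem op_single (S : Stage G V) (g : G) : S.op [((1 : ℚ), g)] = S.ρ g := by simp [op]

/-- an element of the transporter gives a solution -/
theorem sol_of_mem {S : Stage G V} {x z : V} {g g₀ : G} (hg : g ∈ S.C x) (hg₀ : g₀ ∈ S.C x)
    (h : S.d x g - z ∈ S.U') : S.Sol x z g₀ [((1 : ℚ), g)] := by
  refine ⟨by simpa using hg, ?_⟩
  rw [op_single]
  have h1 := (NB_cocycle_comm hg hg₀).NQ
  have h2 : S.NQ x ((S.ρ g₀ (S.d x g) - S.d x g) - (S.ρ g₀ z - z)) := by
    apply NQ.of_mem
    have e : (S.ρ g₀ (S.d x g) - S.d x g) - (S.ρ g₀ z - z)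
        = S.ρ g₀ (S.d x g - z) - (S.d x g - z) := by
      rw [map_sub]; abel
    rw [e]
    exact S.U'.sub_mem (S.invU' g₀ _ h) h
  have h3 := h1.add h2
  have e : (S.ρ g (S.d x g₀) - S.d x g₀) - (S.ρ g₀ (S.d x g) - S.d x g)
      + ((S.ρ g₀ (S.d x g) - S.d x g) - (S.ρ g₀ z - z))
      = S.ρ g (S.d x g₀) - (S.d x g₀ + (S.ρ g₀ z - z)) := by abel
  rwa [e] at h3

/-- two solutions agree on `U/U'` -/
theorem sol_unique [FiniteDimensional ℚ V] {S : Stage G V} {x z : V} {g₀ : G} (hg₀ : g₀ ∈ S.C x)
    (hd : ¬ S.NQ x (S.d x g₀)) {l l' : List (ℚ × G)} (h : S.Sol x z g₀ l)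
    (h' : S.Sol x z g₀ l') : ∀ v ∈ S.U, S.op l v - S.op l' v ∈ S.U' := by
  by_contra hcon
  apply hd
  have e : ∀ v, S.op (l ++ l'.map fun p => (-p.1, p.2)) v = S.op l v - S.op l' v := by
    intro v
    rw [op_append, op_neg, LinearMap.add_apply, LinearMap.neg_apply, sub_eq_add_neg]
  refine NQ_of_op (l := l ++ l'.map fun p => (-p.1, p.2)) ?_ ?_ hg₀ ?_
  · intro p hp
    rw [List.mem_append] at hp
    rcases hp with hp | hp
    · exact h.1 p hp
    · obtain ⟨p', hp', rfl⟩ := List.mem_map.mp hp
      exact h'.1 p' hp'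
  · intro hall
    apply hcon
    intro v hv
    rw [← e]
    exact hall v hv
  · rw [e]
    have := h.2.sub h'.2
    rwa [sub_sub_sub_cancel_right] at this

theorem _root_.Pool.Agent.CP.not_T_iff_K [FiniteDimensional ℚ V] {S : Stage G V} {x z : V} {b h c : List G}
    (hc : S.Conf x b h c) (hz : z ∈ S.U) {g₀ : G} (hg₀ : g₀ ∈ S.C x) (hn : ¬ S.Triv g₀)
    (hd : ¬ S.NQ x (S.d x g₀)) (hh : ∀ g ∈ h, S.κ g = 0)
    (hb : Ind (fun v => v = 0) (b.map S.κ)) : ¬ S.T x z ↔ S.NTK x z b c g₀ := by
  constructor
  · intro hT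
    by_cases h1 : ∃ l : List (ℚ × G), S.Sol x z g₀ l
    · obtain ⟨l, hl⟩ := h1
      by_cases h2 : ∃ g : G, ∀ v ∈ S.U, S.op l v - S.ρ g v ∈ S.U'
      · obtain ⟨g, hg⟩ := h2
        refine Or.inr (Or.inr ⟨l, hl, g, hg, ?_⟩)
        by_cases h3 : ∃ q : List ℚ, q.length = b.length ∧ S.κ g = lq (b.map S.κ) q
        · obtain ⟨q, hq, hgq⟩ := h3
          obtain ⟨m, hm, e, he, hme⟩ := exists_denom_lc (b.map S.κ) q (by simpa using hq)
          rw [← hgq] at hme
          by_cases h4 : ∃ i ∈ e, ¬ (m : ℤ) ∣ i
          · exact Or.inr (Or.inl ⟨m, hm, e, by simpa using he, hme, h4⟩)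
          · push Not at h4
            right; right
            have h5 : ∃ e' : List ℤ, e = e'.map ((m : ℤ) * ·) := by
              refine ⟨e.map (fun i => i / (m : ℤ)), ?_⟩
              rw [List.map_map]
              conv_lhs => rw [← List.map_id e]
              apply List.map_congr_left
              intro i hi
              exact (Int.mul_ediv_cancel' (h4 i hi)).symm
            obtain ⟨e', rfl⟩ := h5
            have he' : e'.length = (b.map S.κ).length := by simpa using he
            refine ⟨e', by simpa using he', ?_, ?_⟩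
            · rw [lc_mul _ _ e' he', ← Nat.cast_smul_eq_nsmul ℤ] at hme
              have hm' : ((m : ℤ)) ≠ 0 := by exact_mod_cast hm.ne'
              exact smul_right_injective _ hm' hme
            · intro g' hg' hNB
              exact hT ((T_iff hc hz).2 ⟨e', by simpa using he', g', hg', hNB⟩)
        · exact Or.inl h3
      · exact Or.inr (Or.inl ⟨l, hl, h2⟩)
    · exact Or.inl h1
  · intro hNT hT
    obtain ⟨e, he, g', hg', hNB⟩ := (T_iff hc hz).1 hT
    set w := pw b e * g' with hw
    have hwC : w ∈ S.C x := (S.C x).mul_mem (pw_mem b e hc.b_mem) (hc.c_mem g' hg')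
    obtain ⟨ν, hν, hνx, hν'⟩ := exists_N (z := z - S.d x w) hNB.swap (S.U.sub_mem hz hwC)
    have hgC : ν * w ∈ S.C x := (S.C x).mul_mem hνx hwC
    have hdz : S.d x (ν * w) - z ∈ S.U' := by
      have h1 := triv_d (S.triv_of_mem_N hν) hwC
      have h2 := S.U'.add_mem h1 hν'
      have e1 : S.d x (ν * w) - (S.d x ν + S.d x w) + (S.d x ν - (z - S.d x w))
          = S.d x (ν * w) - z := by abel
      rwa [e1] at h2
    have hsol := sol_of_mem hgC hg₀ hdz
    have hκ : S.κ (ν * w) = lc (b.map S.κ) e := by
      rw [S.κ_mul, Stage.κ_of_triv (S.triv_of_mem_N hν), hw, S.κ_mul, κ_pw S b e he,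
        κ_of_mem_cl S hh (hc.c_cl g' hg'), zero_add, add_zero]
    have he2 : e.length = (b.map S.κ).length := by simpa using he
    rcases hNT with h1 | ⟨l, hl, h2⟩ | ⟨l, hl, g, hg, h3⟩
    · exact h1 ⟨_, hsol⟩
    · apply h2
      refine ⟨ν * w, fun v hv => ?_⟩
      have := sol_unique hg₀ hd hl hsol v hv
      rwa [op_single] at this
    · have hκg : S.κ g = lc (b.map S.κ) e := by
        rw [← hκ]
        have ht : S.Triv (g⁻¹ * (ν * w)) := by
          intro v hv
          have h4 := sol_unique hg₀ hd hl hsol v hv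
          rw [op_single] at h4
          have h5 := S.U'.sub_mem (hg v hv) h4
          have h6 := S.invU' g⁻¹ _ h5
          have e1 : S.ρ g⁻¹ (S.op l v - S.ρ g v - (S.op l v - S.ρ (ν * w) v))
              = S.ρ (g⁻¹ * (ν * w)) v - v := by
            rw [sub_sub_sub_cancel_left, map_sub, ρ_inv_apply, ← S.ρ_mul_apply g⁻¹ (ν * w)]
          rwa [e1] at h6
        have h7 := Stage.κ_of_triv ht
        rw [S.κ_mul, Stage.κ_inv] at h7
        exact (neg_add_eq_zero.mp h7)
      rcases h3 with h3 | ⟨m, hm, e2, he2', hme, i, hi, hmi⟩ | ⟨e2, he2', hκ2, h3⟩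
      · apply h3
        refine ⟨e.map (fun i : ℤ => (i : ℚ)), by simpa using he, ?_⟩
        rw [lq_cast _ e he2, hκg]
      · apply hmi
        have h4 : e2 = e.map ((m : ℤ) * ·) := by
          apply ind_eq_of hb (by simpa using he2') (by simpa using he)
          rw [← hme, lc_mul _ _ e he2, hκg, Nat.cast_smul_eq_nsmul, sub_self]
        rw [h4] at hi
        obtain ⟨j, _, rfl⟩ := List.mem_map.mp hi
        exact Dvd.intro _ rfl
      · have h4 : e2 = e := by
          apply ind_eq_of hb (by simpa using he2') he2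
          rw [← hκ2, ← hκg, sub_self]
        subst h4
        exact h3 g' hg' hNB

end main

end Pool.Agent.CP.OA5c
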